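import Pool.Agent.H12.S3.Smo
import Pool.Agent.H51.F3.Pm

/-!
# H51-F4-DEFS: the statements of stage 3 for all classes, `p = 2` included (MP_b39724_nt, theorem OW)

As `EQ3s`, `EQ3` (H12/S3/Smo, H12/S3/Defs), `APm3`, `PLc` (H51/F3/Pm) without the condition `C4`.
-/

set_option autoImplicit false

open scoped NumberField
open IsDedekindDomain Filter Topology
open scoped Classical

noncomputable section

namespace H51.F4

open H38.ML H63.MA H38.BB H38.BG H57.PC H57.BRA H57.CC H38.AS H77.WD H77.WE H77.PC3 H77.S0T H77.FLD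
  H77.PLF H35.UB H35.AC H51.PF H51.AC2 H51.F3 H24.RK H12.S3

/-- chapter B for all `p`-groups and all classes, smooth form (TARGET) -/
def EQ4s (p : ℕ) : Prop :=
  ∀ (P : Type) [Group P] [Fintype P] (_ : IsPGroup p P), ∃ n κ₁ : ℕ,
    ∀ (N : ℕ) (c : CL p N P) (_ : 1 ≤ N)
      (K : IntermediateField ℚ QBar) [NumberField K] (ζ : K) (_ : IsPrimitiveRoot ζ p) (z : K)
      (_ : IsPrimitiveRoot z (p ^ (n + 1))) (_ : z ^ p ^ n = ζ) (D : RD K p ζ),
      EQss D.toRD0 c (n + 1) z κ₁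

/-- chapter B for all `p`-groups and all classes -/
def EQ4 (p : ℕ) : Prop :=
  ∀ (P : Type) [Group P] [Fintype P] (_ : IsPGroup p P), ∃ n κ₁ : ℕ,
    ∀ (N : ℕ) (c : CL p N P) (_ : 1 ≤ N)
      (K : IntermediateField ℚ QBar) [NumberField K] (ζ : K) (_ : IsPrimitiveRoot ζ p) (z : K)
      (_ : IsPrimitiveRoot z (p ^ (n + 1))) (_ : z ^ p ^ n = ζ) (D : RD K p ζ),
      EQs D.toRD0 c (n + 1) z κ₁

/-- the end of chapter D, for all `p`-groups and all classes -/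
def APm4 (p : ℕ) : Prop :=
  ∀ (P : Type) [Group P] [Finite P] (_ : IsPGroup p P), ∃ n : ℕ,
    ∀ (N : ℕ) (c : CL p N P) (_ : 1 ≤ N)
      (K : IntermediateField ℚ QBar) [NumberField K] (ζ : K) (_ : IsPrimitiveRoot ζ p) (z : K)
      (_ : IsPrimitiveRoot z (p ^ (n + 1))) (_ : z ^ p ^ n = ζ) (D : RD K p ζ),
      LmT D.toRD0 c (n + 1) z ∧ PsT D.toRD0 c (n + 1) z

/-- the P-level theorem, all classes -/
def PL4 (p : ℕ) : Prop :=
  ∀ (P : Type) [Group P] [Finite P] (_ : IsPGroup p P),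
    ∃ M : ℕ, 2 ≤ M ∧ ∀ (N : ℕ) (c : CL p N P) (_ : 1 ≤ N),
      PLimT p M c (Tc c) ∧ PUb p M c ∧ PPos2 p M c

end H51.F4
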