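import Pool.Agent.H51.F4.Defs
import Pool.Agent.H12.S3.Asm
import Pool.Agent.H12.S3.Shp
import Pool.Agent.H35.S3.Nr3
import Pool.Agent.H93.BX.Blz

/-!
# H51-F4-END: from chapter B for all classes to `APm4 p` (MP_b39724_nt, theorem OW)

`shp4`: `EQ4s p → EQ4 p`. `asm4`: chapter D (as H12/S3/Asm, without `C4`). `apm4_of`: `EQ4s p → APm4 p`.
-/

set_option autoImplicit false

open scoped NumberField
open IsDedekindDomain Filter Topology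
open scoped Classical

noncomputable section

namespace H51.F4

open H38.ML H63.MA H38.BB H38.BG H57.PC H57.BRA H38.AS H77.WD H77.WE H77.GL H77.PC3 H77.S0T H77.FLD H77.PLF
  H35.CF H35.UB H35.AC H51.PF H51.AC2 H51.F3 H24.RK H62.BL H86.AP H12.S3 H35.NS2

/-- `-1` is a `p`-th power if there are roots of unity of order `p ^ 2` -/
private theorem mone_of' {p M : ℕ} (hp : p.Prime) (hM : 2 ≤ M) {K : Type} [Field K] {z : K}
    (hz : IsPrimitiveRoot z (p ^ M)) : MOne p K := by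
  rcases hp.eq_two_or_odd' with h | h
  · subst h
    have h1 : IsPrimitiveRoot (z ^ 2 ^ (M - 1)) 2 := by
      refine hz.pow (pow_pos two_pos _) ?_
      rw [← pow_succ]
      congr 1
      omega
    refine ⟨z ^ 2 ^ (M - 2), ?_⟩
    rw [← h1.eq_neg_one_of_two_right, ← pow_mul, ← pow_succ]
    congr 2
    omega
  · exact ⟨-1, h.neg_one_pow⟩

private theorem prm_pow' {K : Type} [Field K] {p M M' : ℕ} (hp : p.Prime) {z : K}
    (hz : IsPrimitiveRoot z (p ^ M)) (h : M' ≤ M) : ∃ z' : K, IsPrimitiveRoot z' (p ^ M') := by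
  refine ⟨z ^ (p ^ (M - M')), hz.pow (pow_pos hp.pos _) ?_⟩
  rw [← pow_add]
  congr 1
  omega

theorem shp4 {p : ℕ} (hp : p.Prime) (h : EQ4s p) : EQ4 p := by
  intro P _ _ hP
  obtain ⟨n, κ₁, h⟩ := h P hP
  exact ⟨n, κ₁, fun N c hN K _ ζ hζ z hz hzζ D L hL Fr Q hLQ φb φ' E hF =>
    shp hp hζ hP L Fr Q c φb φ' E κ₁ (h N c hN K ζ hζ z hz hzζ D L hL Fr Q hLQ φb φ' E hF)⟩

/-- THEOREM of chapter D -/
theorem asm4 {p : ℕ} (hp : p.Prime) (hE : EQ4 p) (hR : NR3 p) (hB : BL2 p) (hG : GP2 p)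
    (P : Type) [Group P] [Fintype P] (hP : IsPGroup p P) : ∃ n : ℕ,
    ∀ (N : ℕ) (c : CL p N P) (_ : 1 ≤ N)
      (K : IntermediateField ℚ QBar) [NumberField K] (ζ : K) (_ : IsPrimitiveRoot ζ p) (z : K)
      (_ : IsPrimitiveRoot z (p ^ (n + 1))) (_ : z ^ p ^ n = ζ) (D : RD K p ζ),
      LmT D.toRD0 c (n + 1) z ∧ PsT D.toRD0 c (n + 1) z := by
  have : NeZero p := ⟨hp.ne_zero⟩
  have : Fact p.Prime := ⟨hp⟩
  obtain ⟨nE, κ₁, hE⟩ := hE P hP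
  obtain ⟨nR, hR⟩ := hR P hP
  obtain ⟨κ, hκ⟩ : ∃ κ : ℕ, ∀ x : P, x ^ (p ^ κ) = 1 := by
    obtain ⟨κ, hκ⟩ := IsPGroup.iff_card.1 hP
    exact ⟨κ, fun x => by rw [← hκ]; exact pow_card_eq_one'⟩
  obtain ⟨MB, hMB⟩ := hB κ (Nat.card P)
  obtain ⟨MG, hMG⟩ := hG κ
  obtain ⟨MG₁, hMG₁⟩ := hG κ₁
  obtain ⟨n, hn⟩ : ∃ n : ℕ, n = nE + nR + MB + MG + MG₁ + 1 := ⟨_, rfl⟩
  refine ⟨n, fun N c hN K _ ζ hζ z hz hzζ D => ?_⟩
  have hM1 : MOne p K := mone_of' hp (show 2 ≤ n + 1 by omega) hz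
  obtain ⟨zB, hzB⟩ := prm_pow' hp hz (show MB ≤ n + 1 by omega)
  obtain ⟨zG, hzG⟩ := prm_pow' hp hz (show MG ≤ n + 1 by omega)
  obtain ⟨zG₁, hzG₁⟩ := prm_pow' hp hz (show MG₁ ≤ n + 1 by omega)
  have hU : UBK D.toRD0 c := ubf hp hζ D.toRD0 κ hκ (hMG K ζ hζ zG hzG D)
    (fun A => hMB K ζ hζ zB hzB D A) c
  have hG1 : GPU D.toRD0 QBar κ₁ := hMG₁ K ζ hζ zG₁ hzG₁ D
  have key : ∀ m, m ≤ n → IsPrimitiveRoot (z ^ p ^ (n - m)) (p ^ (m + 1)) ∧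
      (z ^ p ^ (n - m)) ^ p ^ m = ζ := by
    intro m hm
    constructor
    · refine hz.pow (pow_pos hp.pos _) ?_
      rw [← pow_add]
      congr 1
      omega
    · rw [← pow_mul, ← pow_add, Nat.sub_add_cancel hm, hzζ]
  obtain ⟨e1, e2⟩ := key nE (by omega)
  obtain ⟨r1, r2⟩ := key nR (by omega)
  have hE' : EQs D.toRD0 c (n + 1) z κ₁ := by
    intro L hL Fr Q hLQ φb φ' E hF
    refine hE N c hN K ζ hζ _ e1 e2 D L ?_ Fr Q hLQ φb φ' E hF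
    have h := hL.mono (show nE + 1 ≤ n + 1 by omega)
    have h2 : n + 1 - (nE + 1) = n - nE := by omega
    rwa [h2] at h
  have hR' : NRs D.toRD0 c (n + 1) z := by
    intro L hL Fr Q hLQ φb φ' E hF
    refine hR N c hN K ζ hζ _ r1 r2 D L ?_ Fr Q hLQ φb φ' E hF
    have h := hL.mono (show nR + 1 ≤ n + 1 by omega)
    have h2 : n + 1 - (nR + 1) = n - nR := by omega
    rwa [h2] at h
  exact ⟨lmt hp hM1 hζ hP hN D.toRD0 c (n + 1) κ₁ z hE' hR' hU hG1,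
    pst hp hM1 hζ hP hN D.toRD0 c (n + 1) κ₁ z hE' hR' hU hG1⟩

/-- the end -/
theorem apm4_of {p : ℕ} (hp : p.Prime) (h : EQ4s p) : APm4 p := by
  intro P _ _ hP
  have := Fintype.ofFinite P
  exact asm4 hp (shp4 hp h) (H35.S3.nr3 hp (H93.BX.pbl hp)) (bl2_all hp) (gp2_all hp) P hP

end H51.F4
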