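import Pool.Agent.H51.F4.Pm
import Pool.Agent.H86.HS.Stm

/-!
# H51-F4-HC: theorem HT (the subgroup `T` generated by the elements of least index meets a term of the lower central series trivially) from `APm4` (MP_b39724_nt, theorem OW)

As H51/HC/Pf, H51/HC/Fin, H86/HS/Fin, H86/HS/Stm without the condition `CT`.
-/

set_option autoImplicit false

open scoped NumberField
open IsDedekindDomain Filter Topology H38.ML
open scoped Classical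

noncomputable section

namespace H51.F4

open H63.MA H38.BB H38.BG H57.PC H57.BRA H63.BU H77.PC3 H57.CC H38.AS H77.S0T H77.AB H77.GN
  H77.UX H77.FLD H77.PLF H51.PF H51.NS H51.F3 H12.S3 H51.HC H86.HS

/-- the P-level statements -/
theorem plf4 {p : ℕ} (hp : p.Prime) (hA : APm4 p) (hU : APu3 p) (P : Type) [Group P] [Finite P]
    (hPg : IsPGroup p P) :
    ∃ M : ℕ, 2 ≤ M ∧ ∀ (N : ℕ) (c : CL p N P) (_ : 1 ≤ N), PLf p M c := by
  obtain ⟨M₁, hM₁, h₁⟩ := plc4 hp hA hU (H35.NS2.bl2_all hp) (H35.NS2.gp2_all hp) P hPg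
  obtain ⟨n, hn⟩ := hA P hPg
  refine ⟨M₁ + n + 1, by omega, fun N c hN => ?_⟩
  obtain ⟨a1, a2, -⟩ := h₁ N c hN
  refine ⟨plim_mono hp (by omega) a1, pub_mono hp (by omega) a2,
    ppost_of hp n _ (by omega) c (Tc c) ?_⟩
  intro K _ ζ hζ z hz hz2 D L hL Q hLQ φ₀ h₀ hs hun
  exact (hn N c hN K ζ hζ z hz hz2 D).2 L hL Q hLQ φ₀ h₀ hs hun

/-- the P-level statements of the frame -/
theorem hpf4 {p : ℕ} (hp : p.Prime) (hA : APm4 p) (hU : APu3 p) {n N : ℕ}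
    {G : Subgroup (Equiv.Perm (Fin n))} {P H : Type} [Group P] [Group H] [Finite P]
    (hN : 1 ≤ N) (F : HF G p N P H) : ∃ M : ℕ, 2 ≤ M ∧ PLf p M F.Q.cP := by
  obtain ⟨M₁, hM₁, h₁⟩ := plf4 hp hA hU P F.pg
  exact ⟨M₁, hM₁, h₁ N _ hN⟩

/-- the lower bound and the asymptotic formula -/
theorem ht_ks4 (hA : ∀ p : ℕ, p.Prime → APm4 p) (hU : ∀ p : ℕ, p.Prime → APu3 p) (n : ℕ)
    (hn : 2 ≤ n) (G : Subgroup (Equiv.Perm (Fin n))) (hG : MulAction.IsPretransitive G (Fin n))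
    (k : ℕ) (hk : Subgroup.closure (Li G) ⊓ (⊤ : Subgroup G).lowerCentralSeries k = ⊥) :
    ∃ m : ℕ, 0 < m ∧ 3 ∣ m ∧ ∃ K₀ : IntermediateField ℚ (AlgebraicClosure ℚ), NumberField K₀ ∧
      ∀ K : IntermediateField ℚ (AlgebraicClosure ℚ), ∀ _ : NumberField K,
      (∃ z : K, IsPrimitiveRoot z m) →
        (K₀ ≤ K ∨ Spec.IsGaloisGroup K (AlgebraicClosure ℚ) G) →
          (∃ c B₀ : ℝ, 0 < c ∧ ∀ B : ℝ, B₀ ≤ B →
            ((⌈c * B ^ (1 / (Spec.indG G : ℝ)) *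
              Real.log B ^ (Spec.betaAll K (AlgebraicClosure ℚ) G - 1)⌉₊ : ℕ) : ℕ∞) ≤
                Spec.nK K (AlgebraicClosure ℚ) G B) ∧
          ((∃ θ : ℝ, 0 ≤ θ ∧
            (∀ g : G, g ∉ Subgroup.closure (Li G) →
              θ * (Spec.indG G : ℝ) < (Spec.ind (g : Equiv.Perm (Fin n)) : ℝ)) ∧
            ∀ (H : Type) [Group H] [Finite H] (ph : G →* H), Function.Surjective ph →
              ph.ker = Subgroup.closure (Li G) → RBs K QBar H θ) →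
            Asy G K) := by
  obtain ⟨p, N, P, H, iP, iH, fP, fH, hp, hN, hL, ⟨F⟩⟩ := hfr n hn G hG k hk
  obtain ⟨M, hM, hPL⟩ := hpf4 hp (hA p hp) (hU p hp) hN F
  obtain ⟨K₀, hK₀, h0⟩ := H38.BG.akn G
  have hcard : 0 < Nat.card G := Nat.card_pos
  have hp0 := hp.pos
  have hm : 0 < Nat.card G * p ^ M * 3 := by positivity
  refine ⟨Nat.card G * p ^ M * 3, hm, Dvd.intro_left _ rfl, K₀, hK₀, fun K hK hz hG' => ?_⟩
  obtain ⟨z, hz⟩ := hz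
  have hz1 : ∃ z : K, IsPrimitiveRoot z (Nat.card G) := ⟨z ^ (p ^ M * 3), hz.pow hm (by ring)⟩
  have hzM : ∃ z : K, IsPrimitiveRoot z (p ^ M) := ⟨z ^ (Nat.card G * 3), hz.pow hm (by ring)⟩
  have hρ : ∃ ρ : Gal(H38.ML.QBar/K) →* G, Function.Surjective ρ ∧ H38.ML.FT ρ := by
    rcases hG' with h | h
    · exact (h0 K h hK).1
    · exact h
  refine ⟨low_k hn hG hp F M hM hPL hρ hz1 hzM, ?_⟩
  rintro ⟨θ, hθ, hr, hRB⟩
  refine asy_ks hn hG hp F M hM hPL hρ hz1 hzM θ hθ (hRB H F.Q.ph F.Q.phs F.ker) fun g hg => ?_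
  refine hr g fun h => hg ?_
  rw [← F.ker, MonoidHom.mem_ker] at h
  exact h

/-- THEOREM HT -/
theorem ht_all (hA : ∀ p : ℕ, p.Prime → APm4 p) (hU : ∀ p : ℕ, p.Prime → APu3 p) (n : ℕ)
    (hn : 2 ≤ n) (G : Subgroup (Equiv.Perm (Fin n))) (hG : MulAction.IsPretransitive G (Fin n))
    (T : Subgroup G)
    (hT : T = Subgroup.closure {h : G | h ≠ 1 ∧ Spec.ind (h : Equiv.Perm (Fin n)) = Spec.indG G})
    (k : ℕ) (hk : T ⊓ (⊤ : Subgroup G).lowerCentralSeries k = ⊥) :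
    ∃ m : ℕ, 0 < m ∧ ∃ K₀ : IntermediateField ℚ (AlgebraicClosure ℚ), NumberField K₀ ∧
      ∀ K : IntermediateField ℚ (AlgebraicClosure ℚ), ∀ _ : NumberField K,
      (∃ z : K, IsPrimitiveRoot z m) →
        (CR G T → ∃ C : ℝ, 0 < C ∧ ∀ B : ℝ, 3 ≤ B → Spec.nK K (AlgebraicClosure ℚ) G B ≤
          ((⌊C * (B ^ (1 / (Spec.indG G : ℝ)) *
            Real.log B ^ (Spec.betaAll K (AlgebraicClosure ℚ) G - 1))⌋₊ : ℕ) : ℕ∞)) ∧
        ((K₀ ≤ K ∨ Spec.IsGaloisGroup K (AlgebraicClosure ℚ) G) →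
          (∃ c B₀ : ℝ, 0 < c ∧ ∀ B : ℝ, B₀ ≤ B →
            ((⌈c * B ^ (1 / (Spec.indG G : ℝ)) *
              Real.log B ^ (Spec.betaAll K (AlgebraicClosure ℚ) G - 1)⌉₊ : ℕ) : ℕ∞) ≤
                Spec.nK K (AlgebraicClosure ℚ) G B) ∧
          (CR G T → (∀ B : ℝ, Spec.nK K (AlgebraicClosure ℚ) G B ≠ ⊤) ∧
            ∃ C : ℝ, 0 < C ∧ Filter.Tendsto
              (fun B : ℝ => ((Spec.nK K (AlgebraicClosure ℚ) G B).toNat : ℝ) /
                (B ^ (1 / (Spec.indG G : ℝ)) *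
                  Real.log B ^ (Spec.betaAll K (AlgebraicClosure ℚ) G - 1)))
              Filter.atTop (nhds C))) := by
  subst hT
  obtain ⟨m₁, hm₁, h31, K₀, hK₀, h1⟩ : ∃ m : ℕ, 0 < m ∧ 3 ∣ m ∧
      ∃ K₀ : IntermediateField ℚ (AlgebraicClosure ℚ), NumberField K₀ ∧ (
      ∀ K : IntermediateField ℚ (AlgebraicClosure ℚ), ∀ _ : NumberField K,
      (∃ z : K, IsPrimitiveRoot z m) →
        (K₀ ≤ K ∨ Spec.IsGaloisGroup K (AlgebraicClosure ℚ) G) →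
          (∃ c B₀ : ℝ, 0 < c ∧ ∀ B : ℝ, B₀ ≤ B →
            ((⌈c * B ^ (1 / (Spec.indG G : ℝ)) *
              Real.log B ^ (Spec.betaAll K (AlgebraicClosure ℚ) G - 1)⌉₊ : ℕ) : ℕ∞) ≤
                Spec.nK K (AlgebraicClosure ℚ) G B) ∧
          ((∃ θ : ℝ, 0 ≤ θ ∧
            (∀ g : G, g ∉ Subgroup.closure (Li G) →
              θ * (Spec.indG G : ℝ) < (Spec.ind (g : Equiv.Perm (Fin n)) : ℝ)) ∧
            ∀ (H : Type) [Group H] [Finite H] (ph : G →* H), Function.Surjective ph →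
              ph.ker = Subgroup.closure (Li G) → RBs K QBar H θ) →
            Asy G K)) := by
    exact ht_ks4 hA hU n hn G hG k hk
  obtain ⟨m₂, hm₂, h32, h2⟩ := ht_us hU n hn G hG k hk
  have hm : 0 < m₁ * m₂ := Nat.mul_pos hm₁ hm₂
  refine ⟨m₁ * m₂, hm, K₀, hK₀, fun K hK hz => ?_⟩
  obtain ⟨z, hz⟩ := hz
  have hz1 : ∃ z : K, IsPrimitiveRoot z m₁ := ⟨z ^ m₂, hz.pow hm (mul_comm _ _)⟩
  have hz2 : ∃ z : K, IsPrimitiveRoot z m₂ := ⟨z ^ m₁, hz.pow hm rfl⟩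
  obtain ⟨q, hq⟩ := h31
  have hz3 : IsPrimitiveRoot (z ^ (q * m₂)) 3 := hz.pow hm (by rw [hq]; ring)
  refine ⟨fun hR => h2 K hK hz2 (rbs_cond hn G hG k hk hR K _ hz3), fun hG' => ?_⟩
  obtain ⟨h3, h4⟩ := h1 K hK hz1 hG'
  refine ⟨h3, fun hR => ?_⟩
  obtain ⟨C, hC0, kk, hk1, hk2⟩ := h4 (rbs_cond hn G hG k hk hR K _ hz3)
  refine ⟨fun B => ?_, C, hC0, ?_⟩
  · rw [hk1 B]
    exact ENat.natCast_ne_top _
  · refine hk2.congr fun B => ?_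
    rw [hk1 B, ENat.toNat_natCast]

end H51.F4
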