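import Pool.Agent.H51.F4.Defs

/-!
# H51-F4-PM: from `APm4`, `APu3` to the final theorem for every nilpotent transitive group (MP_b39724_nt, theorem OW)

* `plc4`: `PL4 p` from `APm4 p`, `APu3 p`, `BL2 p`, `GP2 p`. `malle_nil`: THE FINAL THEOREM: the asymptotic formula for every nilpotent transitive group.
-/

set_option autoImplicit false

open scoped NumberField
open IsDedekindDomain Filter Topology
open scoped Classical

noncomputable section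

namespace H51.F4

open H38.ML H63.MA H38.BB H38.BG H57.PC H57.BRA H57.CC H38.AS H77.WD H77.WE H77.PC3 H77.S0T H77.FLD
  H77.PLF H35.UB H35.AC H51.PF H51.AC2 H24.RK H12.S3 H51.F3

theorem plc4 {p : ℕ} (hp : p.Prime) (hA : APm4 p) (hU : APu3 p) (hB : BL2 p) (hG : GP2 p) :
    PL4 p := by
  intro P _ _ hPg
  have : NeZero p := ⟨hp.ne_zero⟩
  have : Fact p.Prime := ⟨hp⟩
  obtain ⟨n, hAn⟩ := hA P hPg
  obtain ⟨M, hM, hPU⟩ := pun3 hp hU hB hG P hPg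
  refine ⟨n + M + 1, by omega, fun N c hN => ?_⟩
  have key : ∀ (K : IntermediateField ℚ QBar) [NumberField K] (ζ : K) (_ : IsPrimitiveRoot ζ p)
      (z : K) (_ : IsPrimitiveRoot z (p ^ (n + M + 1))) (D : RD K p ζ),
      ∃ z' : K, IsPrimitiveRoot z' (p ^ (n + 1)) ∧ z' ^ p ^ n = ζ ∧
        LmT D.toRD0 c (n + 1) z' ∧ PsT D.toRD0 c (n + 1) z' := by
    intro K _ ζ hζ z hz D
    obtain ⟨zA, hzA⟩ := H51.AC2.prm_pow hp hz (show n + 1 ≤ n + M + 1 by omega)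
    obtain ⟨z', hz', hz2⟩ := zn_norm hp hζ hzA
    exact ⟨z', hz', hz2, hAn N c hN K ζ hζ z' hz' hz2 D⟩
  refine ⟨?_, ?_, ?_⟩
  · intro K _ ζ hζ z hz D L Q hLQ φ₁ hφ
    obtain ⟨z', hz', hz2, h2, -⟩ := key K ζ hζ z hz D
    obtain ⟨L', hL', hLL⟩ := nl_exists (Ω := QBar) hp hz' hζ hz2 L
    have hLP : ∀ v hv, (L'.ld v hv).P = (L.ld v hv).P := fun v hv => (hLL v hv).1
    obtain ⟨l, hl⟩ := h2 L' hL' Q (trn_lq hLP hLQ) φ₁ hφ
    refine ⟨l, hl.congr fun Y => ?_⟩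
    rw [trn_syt hp hζ hLP Q c (Tc c) φ₁ Y]
  · intro K _ ζ hζ z hz D L η hη
    obtain ⟨zM, hzM⟩ := H51.AC2.prm_pow hp hz (show M ≤ n + M + 1 by omega)
    exact hPU N c hN K ζ hζ zM hzM D L η hη
  · intro K _ ζ hζ z hz D L φ₀ h₀ hs hun
    obtain ⟨z', hz', hz2, -, h3⟩ := key K ζ hζ z hz D
    obtain ⟨L', hL', hLL⟩ := nl_exists (Ω := QBar) hp hz' hζ hz2 L
    have hLP : ∀ v hv, (L'.ld v hv).P = (L.ld v hv).P := fun v hv => (hLL v hv).1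
    obtain ⟨C, X₀, hC, hX₀, h5⟩ := pl_pos3 hp hζ hPg c h3 L' hL' φ₀ h₀ hs
      (fun v hv τ hτ => hun v hv τ (by rw [← trn_in hLP v hv]; exact hτ))
    refine ⟨C, X₀, hC, hX₀, fun X hX => ?_⟩
    obtain ⟨Rs, h6, h7⟩ := h5 X hX
    refine ⟨Rs, h6, fun φ hφ => ?_⟩
    obtain ⟨g1, g2, T', g3, g4, g5, g6⟩ := h7 φ hφ
    refine ⟨g1, g2, T', g3, g4, fun v hv => ?_, fun v hv hv' τ hτ => ?_⟩
    · obtain ⟨i, h, g7, g8⟩ := g5 v hv
      exact ⟨i, h, g7, fun τ hτ => g8 τ (by rw [trn_in hLP v (g3 v hv)]; exact hτ)⟩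
    · exact g6 v hv hv' τ (by rw [trn_in hLP v hv]; exact hτ)

/-- THE FINAL THEOREM: every nilpotent transitive group -/
theorem malle_nil (hA : ∀ p : ℕ, p.Prime → APm4 p) (hU : ∀ p : ℕ, p.Prime → APu3 p) (n : ℕ)
    (hn : 2 ≤ n) (G : Subgroup (Equiv.Perm (Fin n))) (hG : MulAction.IsPretransitive G (Fin n))
    (hnil : Group.IsNilpotent G) :
    ∃ m : ℕ, 0 < m ∧ ∃ K₀ : IntermediateField ℚ (AlgebraicClosure ℚ), NumberField K₀ ∧
      ∀ K : IntermediateField ℚ (AlgebraicClosure ℚ), ∀ _ : NumberField K,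
      (∃ z : K, IsPrimitiveRoot z m) →
        (K₀ ≤ K ∨ Spec.IsGaloisGroup K (AlgebraicClosure ℚ) G) →
          (∀ B : ℝ, Spec.nK K (AlgebraicClosure ℚ) G B ≠ ⊤) ∧
          ∃ C : ℝ, 0 < C ∧ Filter.Tendsto
            (fun B : ℝ => ((Spec.nK K (AlgebraicClosure ℚ) G B).toNat : ℝ) /
              (B ^ (1 / (Spec.indG G : ℝ)) *
                Real.log B ^ (Spec.betaAll K (AlgebraicClosure ℚ) G - 1)))
            Filter.atTop (nhds C) :=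
  fin3q n hn G hG hnil fun p hp hh S => by
    have : Fact p.Prime := ⟨hp⟩
    obtain ⟨M, hM, h⟩ := plc4 hp (hA p hp) (hU p hp) (H35.NS2.bl2_all hp) (H35.NS2.gp2_all hp)
      S S.isPGroup'
    exact ⟨M, hM, fun _ N Q hN hQ => h N Q.cP hN⟩

end H51.F4
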